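import Mathlib

/-!
# The random sieve model of Banks, Ford and Tao

For every prime `p` a residue class `a p` modulo `p` is chosen uniformly at random, independently for
different primes. The random set `R` consists of the integers `n ≥ 8` (that is, `n ≥ e ^ 2`) which avoid
the class `a p` for all primes `p` with `∏_{q ≤ p} (1 - 1/q)⁻¹ ≤ log n`.
-/

set_option autoImplicit false

open MeasureTheory ProbabilityTheory Finset

namespace Pool.Agent.H90.BFT

/-- `Th p = ∏_{q ≤ p, q prime} (1 - 1/q)` -/
noncomputable def Th (p : ℕ) : ℝ := ∏ q ∈ Nat.primesLE p, (1 - 1 / (q : ℝ))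

/-- The set of the integers `n ≥ 8` which are in none of the classes `α p mod p`, where `p` runs over the
primes with `(Th p)⁻¹ ≤ log n`. -/
def RS (α : ℕ → ℕ) : Set ℕ :=
  {n | 8 ≤ n ∧ ∀ p : ℕ, p.Prime → (Th p)⁻¹ ≤ Real.log n → ¬ n ≡ α p [MOD p]}

/-- The random residue classes: `a p` is uniformly distributed in `{0, …, p - 1}` for every prime `p`, and
the `a p` are independent. -/
structure Model {Ω : Type*} [MeasurableSpace Ω] (P : Measure Ω) (a : ℕ → Ω → ℕ) : Prop where
  meas : ∀ p, p.Prime → Measurable (a p)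
  lt : ∀ p, p.Prime → ∀ ω, a p ω < p
  unif : ∀ p, p.Prime → ∀ c, c < p → P {ω | a p ω = c} = 1 / (p : ENNReal)
  indep : iIndepFun (fun (p : Nat.Primes) => a p) P

end Pool.Agent.H90.BFT
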