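import Pool.Agent.H16.RoughGap

/-!
# Deterministic part for the random sieve model

Whatever the residue classes `a p` for `p ≤ 4 ^ z` are, there are many well separated `n < 4 ^ (20 z)`
such that `n` and `n + t` avoid all classes `a p` with `p ≤ 4 ^ z` while every integer strictly in
between lies in a class `a p` with `p ≤ z`.
-/

set_option autoImplicit false

open Finset Filter

namespace Pool.Agent.H90.BFT

open Pool.Agent.H16

lemma dvd_add_pred_mul_iff (p m c : ℕ) (hp : 0 < p) :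
    p ∣ m + (p - 1) * c ↔ m % p = c % p := by
  have h1 : m + (p - 1) * c + c = m + p * c := by
    obtain ⟨r, rfl⟩ : ∃ r, p = r + 1 := ⟨p - 1, by omega⟩
    simp only [Nat.add_sub_cancel]
    ring
  constructor
  · intro h
    have h2 : m + (p - 1) * c ≡ 0 [MOD p] := Nat.modEq_zero_iff_dvd.mpr h
    have h3 : m + (p - 1) * c + c ≡ 0 + c [MOD p] := h2.add_right c
    rw [h1, zero_add] at h3
    have h4 : m + p * c ≡ m [MOD p] := by
      simp [Nat.ModEq]
    exact (h4.symm.trans h3)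
  · intro h
    have h2 : m ≡ c [MOD p] := h
    have h3 : m + p * c ≡ c [MOD p] := by
      have h4 : m + p * c ≡ m [MOD p] := by
        simp [Nat.ModEq]
      exact h4.trans h2
    rw [← h1] at h3
    have h5 : m + (p - 1) * c + c ≡ 0 + c [MOD p] := by rwa [zero_add]
    exact Nat.modEq_zero_iff_dvd.mp (Nat.ModEq.add_right_cancel' c h5)

theorem candidates (K : ℕ) (hK : 1 ≤ K) : ∀ᶠ z : ℕ in atTop, ∀ t : ℕ, Even t → 0 < t →
    t ≤ K * z → ∀ a : ℕ → ℕ, ∃ n : ℕ → ℕ,
      (∀ i, (4 ^ z) ^ 18 ≤ n i) ∧ (∀ i, i < (4 ^ z) ^ 3 → n i + t < (4 ^ z) ^ 20) ∧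
      (∀ i i', i < i' → n i + t < n i') ∧
      (∀ i, ∀ p, p.Prime → p ≤ 4 ^ z → n i % p ≠ a p % p ∧ (n i + t) % p ≠ a p % p) ∧
      (∀ i j, 0 < j → j < t → ∃ p, p.Prime ∧ p ≤ z ∧ (n i + j) % p = a p % p) := by
  have hlogz : Tendsto (fun z : ℕ => Real.log z) atTop atTop :=
    Real.tendsto_log_atTop.comp (tendsto_natCast_atTop_atTop (R := ℝ))
  filter_upwards [cover K hK, hlogz.eventually_ge_atTop 100000, eventually_ge_atTop (K + 10)]
    with z hcover hlz hzK t ht ht0 htK a
  obtain ⟨b, hb, hcov⟩ := hcover t ht ht0 htK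
  set y : ℕ := 4 ^ z with hy
  set P : ℕ := PP z with hP
  have hPpos : 0 < P := PP_pos z
  have hPy : P ≤ y := PP_le z
  obtain ⟨A0, hA0lt, hA0⟩ := exists_crt z (fun p => b p + (p - 1) * a p)
  have hzy : z ≤ y := (Nat.lt_pow_self (by norm_num : 1 < 4)).le
  have hz2y : z * z ≤ y := by
    have h1 : ∀ m : ℕ, m * m ≤ 4 ^ m := by
      intro m
      have h2 : m < 2 ^ m := Nat.lt_two_pow_self
      calc m * m ≤ 2 ^ m * 2 ^ m := Nat.mul_le_mul h2.le h2.le
        _ = 4 ^ m := by rw [← Nat.mul_pow]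
    exact h1 z
  have hty : t ≤ y := by
    calc t ≤ K * z := htK
      _ ≤ z * z := Nat.mul_le_mul_right z (by omega)
      _ ≤ y := hz2y
  have hy4 : 4 ^ 10 ≤ y := Nat.pow_le_pow_right (by norm_num) (by omega)
  have hypos : 0 < y := by positivity
  -- the sieve
  have hk : ∀ i : ℕ, ∃ k, k < y ^ 8 ∧ ∀ p ∈ primesIoc z y,
      k % p ∉ Rset (A0 + (y ^ 18 + 2 * i * y ^ 8) * P + (p - 1) * a p) P t p := by
    intro i
    set R : ℕ → Finset ℕ := fun p =>
      Rset (A0 + (y ^ 18 + 2 * i * y ^ 8) * P + (p - 1) * a p) P t p with hR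
    have hX : (y : ℝ) ^ (7.98 : ℝ) ≤ ((y ^ 8 : ℕ) : ℝ) := by
      push_cast
      rw [← Real.rpow_natCast]
      apply Real.rpow_le_rpow_of_exponent_le
      · exact_mod_cast hypos
      · norm_num
    have hcount := brun_two z y hlz hzy R (fun p hp _ _ => Rset_subset _ _ _ _)
      (fun p hp hzp _ => card_Rset _ _ _ _ (coprime_PP hp hzp)) (y ^ 8) hX
    have hpos : (0 : ℝ) < ((y ^ 8 : ℕ) : ℝ) / (40 * (512 * Real.log y) ^ 3) := by
      have hy1 : (1 : ℝ) < y := by
        have : 1 < y := lt_of_lt_of_le (by norm_num) hy4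
        exact_mod_cast this
      have := Real.log_pos hy1
      have h8 : (0 : ℝ) < ((y ^ 8 : ℕ) : ℝ) := by exact_mod_cast pow_pos hypos 8
      positivity
    have hcard : 0 < #{k ∈ range (y ^ 8) | ∀ p ∈ primesIoc z y, k % p ∉ R p} := by
      exact_mod_cast hpos.trans_le hcount
    obtain ⟨k, hk⟩ := Finset.card_pos.mp hcard
    rw [Finset.mem_filter, Finset.mem_range] at hk
    exact ⟨k, hk.1, hk.2⟩
  choose k hklt hk using hk
  set m : ℕ → ℕ := fun i => y ^ 18 + 2 * i * y ^ 8 + k i with hm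
  refine ⟨fun i => A0 + m i * P, ?_, ?_, ?_, ?_, ?_⟩
  · intro i
    calc y ^ 18 ≤ m i := by simp only [hm]; omega
      _ ≤ m i * P := Nat.le_mul_of_pos_right _ hPpos
      _ ≤ A0 + m i * P := Nat.le_add_left _ _
  · intro i hi
    have h1 : m i ≤ y ^ 18 + 2 * y ^ 11 + y ^ 8 := by
      have : 2 * i * y ^ 8 ≤ 2 * y ^ 11 := by
        calc 2 * i * y ^ 8 ≤ 2 * y ^ 3 * y ^ 8 := by gcongr
          _ = 2 * y ^ 11 := by ring
      have := hklt i
      simp only [hm]
      omega
    have h2 : y ^ 11 ≤ y ^ 18 := Nat.pow_le_pow_right hypos (by norm_num)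
    have h3 : y ^ 8 ≤ y ^ 18 := Nat.pow_le_pow_right hypos (by norm_num)
    have h4 : m i * P ≤ 4 * y ^ 18 * y := Nat.mul_le_mul (by omega) hPy
    have h5 : 4 * y ^ 18 * y = 4 * y ^ 19 := by ring
    have h6 : y ≤ y ^ 19 := Nat.le_self_pow (by norm_num) y
    have h7 : 4 ^ 10 * y ^ 19 ≤ y ^ 20 := by
      calc 4 ^ 10 * y ^ 19 ≤ y * y ^ 19 := Nat.mul_le_mul_right _ hy4
        _ = y ^ 20 := by ring
    have h8 : 0 < y ^ 19 := by positivity
    change A0 + m i * P + t < y ^ 20
    have : A0 < y := hA0lt.trans_le hPy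
    omega
  · intro i i' hii
    have h1 : m i + y ^ 8 ≤ m i' := by
      have h2 := hklt i
      have h3 : 2 * i * y ^ 8 + 2 * y ^ 8 ≤ 2 * i' * y ^ 8 := by
        calc 2 * i * y ^ 8 + 2 * y ^ 8 = 2 * (i + 1) * y ^ 8 := by ring
          _ ≤ 2 * i' * y ^ 8 := by gcongr; omega
      simp only [hm]
      omega
    have h4 : t < y ^ 8 := by
      calc t ≤ y := hty
        _ < y ^ 8 := by
            calc y = y ^ 1 := (pow_one y).symm
              _ < y ^ 8 := Nat.pow_lt_pow_right (lt_of_lt_of_le (by norm_num) hy4) (by norm_num)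
    have h5 : (m i + y ^ 8) * P ≤ m i' * P := Nat.mul_le_mul_right P h1
    have h6 : y ^ 8 ≤ y ^ 8 * P := Nat.le_mul_of_pos_right _ hPpos
    have h7 : (m i + y ^ 8) * P = m i * P + y ^ 8 * P := by ring
    change A0 + m i * P + t < A0 + m i' * P
    omega
  · intro i p hp hpy
    change (A0 + m i * P) % p ≠ a p % p ∧ (A0 + m i * P + t) % p ≠ a p % p
    rcases Nat.lt_or_ge z p with hzp | hpz
    · have h1 := not_mem_Rset hp (hk i p (mem_primesIoc.mpr ⟨hzp, hpy, hp⟩))
      have e1 : A0 + (y ^ 18 + 2 * i * y ^ 8) * P + (p - 1) * a p + k i * P =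
          A0 + m i * P + (p - 1) * a p := by simp only [hm]; ring
      have e2 : A0 + (y ^ 18 + 2 * i * y ^ 8) * P + (p - 1) * a p + k i * P + t =
          A0 + m i * P + t + (p - 1) * a p := by simp only [hm]; ring
      rw [e2, e1, dvd_add_pred_mul_iff p _ _ hp.pos, dvd_add_pred_mul_iff p _ _ hp.pos] at h1
      exact h1
    · have hbp := hb p hp hpz
      have h2 : (A0 + m i * P + b p) % p = a p % p := by
        rw [← dvd_add_pred_mul_iff p _ _ hp.pos]
        have h3 := hA0 p hp hpz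
        have h4 : p ∣ m i * P := Dvd.dvd.mul_left (dvd_PP hp hpz) _
        have : A0 + m i * P + b p + (p - 1) * a p = (A0 + (b p + (p - 1) * a p)) + m i * P := by ring
        rw [this]
        exact dvd_add h3 h4
      have h2' : A0 + m i * P + b p ≡ a p [MOD p] := h2
      constructor
      · intro h5
        have h5' : A0 + m i * P ≡ a p [MOD p] := h5
        have h6 : A0 + m i * P + b p ≡ A0 + m i * P + 0 [MOD p] := by
          rw [add_zero]; exact h2'.trans h5'.symm
        have h7 := Nat.ModEq.add_left_cancel' _ h6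
        apply hbp.1
        have : b p % p = 0 % p := h7
        rwa [Nat.zero_mod] at this
      · intro h5
        have h5' : A0 + m i * P + t ≡ a p [MOD p] := h5
        have h6 : A0 + m i * P + b p ≡ A0 + m i * P + t [MOD p] := h2'.trans h5'.symm
        exact hbp.2 (Nat.ModEq.add_left_cancel' _ h6)
  · intro i j hj0 hjt
    obtain ⟨p, hp, hpz, hmod⟩ := hcov j hj0 hjt
    refine ⟨p, hp, hpz, ?_⟩
    have h2 : (A0 + m i * P + b p) % p = a p % p := by
      rw [← dvd_add_pred_mul_iff p _ _ hp.pos]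
      have h3 := hA0 p hp hpz
      have h4 : p ∣ m i * P := Dvd.dvd.mul_left (dvd_PP hp hpz) _
      have : A0 + m i * P + b p + (p - 1) * a p = (A0 + (b p + (p - 1) * a p)) + m i * P := by ring
      rw [this]
      exact dvd_add h3 h4
    have h3 : j ≡ b p [MOD p] := hmod
    have h4 : A0 + m i * P + j ≡ A0 + m i * P + b p [MOD p] := Nat.ModEq.add_left _ h3
    exact h4.trans h2

end Pool.Agent.H90.BFT
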