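import Pool.Agent.H90.BFT.Pairs
import Pool.Agent.H90.BFT.Det

/-!
# Prescribed gaps in the random sieve model
-/

set_option autoImplicit false

open MeasureTheory ProbabilityTheory Finset

namespace Pool.Agent.H90.BFT

/-- `t` is one of the first `N` gaps of the set `S` -/
def Gap (t N : ℕ) (S : Set ℕ) : Prop :=
  ∃ k < N, Nat.nth (· ∈ S) (k + 1) - Nat.nth (· ∈ S) k = t

/-- consecutive elements give a gap -/
lemma gap_of_consecutive (S : Set ℕ) (n t N : ℕ) (ht : 0 < t) (hn : n ∈ S) (hnt : n + t ∈ S)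
    (hbet : ∀ j, 0 < j → j < t → n + j ∉ S) (hN : n < N) : Gap t N S := by
  classical
  have h1 : ∀ j, 1 ≤ j → j ≤ t → Nat.count (· ∈ S) (n + j) = Nat.count (· ∈ S) n + 1 := by
    intro j hj
    induction j, hj using Nat.le_induction with
    | base => intro _; rw [Nat.count_succ, if_pos hn]
    | succ j hj ih =>
      intro hjt
      rw [← Nat.add_assoc, Nat.count_succ, if_neg (hbet j (by omega) (by omega)), ih (by omega)]
  refine ⟨Nat.count (· ∈ S) n, lt_of_le_of_lt (Nat.count_le _) hN, ?_⟩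
  have h2 := h1 t ht le_rfl
  have h3 : Nat.nth (· ∈ S) (Nat.count (· ∈ S) (n + t)) = n + t := Nat.nth_count hnt
  have h4 : Nat.nth (· ∈ S) (Nat.count (· ∈ S) n) = n := Nat.nth_count hn
  rw [h2] at h3
  rw [h3, h4]
  omega

lemma gap_of_candidate (α : ℕ → ℕ) (z t n : ℕ) (hz : 1 ≤ z) (ht : 0 < t)
    (h1 : (4 ^ z) ^ 18 ≤ n) (h2 : n + t < (4 ^ z) ^ 20)
    (h3 : ∀ p, p.Prime → p ≤ 4 ^ z → n % p ≠ α p % p ∧ (n + t) % p ≠ α p % p)
    (h4 : ∀ j, 0 < j → j < t → ∃ p, p.Prime ∧ p ≤ z ∧ (n + j) % p = α p % p)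
    (h5 : ∀ p ∈ TT z, n % p ≠ α p % p ∧ (n + t) % p ≠ α p % p) : Gap t ((4 ^ z) ^ 20) (RS α) := by
  have hbig : 4 ^ 18 ≤ n := by
    refine le_trans ?_ h1
    exact Nat.pow_le_pow_left (by
      calc 4 = 4 ^ 1 := (pow_one 4).symm
        _ ≤ 4 ^ z := Nat.pow_le_pow_right (by norm_num) hz) 18
  have hlogle : ∀ m : ℕ, 0 < m → m < (4 ^ z) ^ 20 →
      Real.log m ≤ Real.log (((4 ^ z) ^ 20 : ℕ) : ℝ) := by
    intro m hm hm2
    apply Real.log_le_log (by exact_mod_cast hm)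
    exact_mod_cast hm2.le
  have hmem : ∀ m : ℕ, 8 ≤ m → m < (4 ^ z) ^ 20 → (∀ p, p.Prime → p ≤ 4 ^ z → m % p ≠ α p % p) →
      (∀ p ∈ TT z, m % p ≠ α p % p) → m ∈ RS α := by
    intro m hm8 hmx hsmall hlarge
    refine ⟨hm8, fun p hp hpt hmod => ?_⟩
    rcases Nat.lt_or_ge (4 ^ z) p with h6 | h6
    · exact hlarge p (mem_TT.mpr ⟨hp, h6, hpt.trans (hlogle m (by omega) hmx)⟩) hmod
    · exact hsmall p hp h6 hmod
  apply gap_of_consecutive (RS α) n t _ ht
  · exact hmem n (by omega) (by omega) (fun p hp hpz => (h3 p hp hpz).1) (fun p hp => (h5 p hp).1)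
  · exact hmem (n + t) (by omega) h2 (fun p hp hpz => (h3 p hp hpz).2) (fun p hp => (h5 p hp).2)
  · intro j hj0 hjt hmemj
    obtain ⟨p, hp, hpz, hmod⟩ := h4 j hj0 hjt
    refine hmemj.2 p hp ?_ hmod
    have h6 := Th_inv_le p hp.one_lt.le
    have h7 : (p : ℝ) ≤ z := by exact_mod_cast hpz
    have h8 : (z : ℝ) ≤ Real.log ((n + j : ℕ) : ℝ) := by
      have h9 : Real.log (((4 ^ z) ^ 18 : ℕ) : ℝ) ≤ Real.log ((n + j : ℕ) : ℝ) := by
        apply Real.log_le_log (by positivity)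
        exact_mod_cast (by omega : (4 ^ z) ^ 18 ≤ n + j)
      refine le_trans ?_ h9
      push_cast
      rw [Real.log_pow, Real.log_pow]
      have h10 : 1 ≤ Real.log 4 := by
        rw [Real.le_log_iff_exp_le (by norm_num)]
        have := Real.exp_one_lt_d9
        linarith
      have hz0 : (0 : ℝ) ≤ z := Nat.cast_nonneg z
      push_cast
      nlinarith
    linarith
  · omega

variable {Ω : Type*} [MeasurableSpace Ω] {P : Measure Ω} [IsProbabilityMeasure P] {a : ℕ → Ω → ℕ}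

/-- primes in a finset, as a finset of `Nat.Primes` -/
def sub (S : Finset ℕ) : Finset Nat.Primes := S.subtype Nat.Prime

lemma mem_sub {S : Finset ℕ} {p : Nat.Primes} : p ∈ sub S ↔ (p : ℕ) ∈ S := Finset.mem_subtype

open Classical in
/-- extension by zero -/
noncomputable def ext (S : Finset ℕ) (v : sub S → ℕ) (p : ℕ) : ℕ :=
  if h : ∃ hp : p.Prime, (⟨p, hp⟩ : Nat.Primes) ∈ sub S then v ⟨⟨p, h.1⟩, h.2⟩ else 0

omit [MeasurableSpace Ω] in
lemma ext_apply (S : Finset ℕ) (a : ℕ → Ω → ℕ) (ω : Ω) (p : ℕ) (hp : p.Prime) (hpS : p ∈ S) :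
    ext S (fun i => a (i : Nat.Primes) ω) p = a p ω := by
  unfold ext
  rw [dif_pos ⟨hp, mem_sub.mpr hpS⟩]

/-- the probability that `t` is not a gap -/
lemma prob_no_gap (h : Model P a) (K : ℕ) (hK : 1 ≤ K) : ∀ᶠ z : ℕ in Filter.atTop,
    ∀ t, Even t → 0 < t → t ≤ K * z →
      P {ω | ¬ Gap t ((4 ^ z) ^ 20) (RS (fun p => a p ω))} ≤
        ENNReal.ofReal (481 / ((4 ^ z : ℕ) : ℝ)) := by
  classical
  have hev : ∀ᶠ z : ℕ in Filter.atTop, K * z ≤ 4 ^ z := by
    have h1 := tendsto_pow_const_div_const_pow_of_one_lt 1 (show (1 : ℝ) < 4 by norm_num)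
    have hK0 : (0 : ℝ) < K := by exact_mod_cast hK
    have h2 := h1.eventually_le_const (show (0 : ℝ) < 1 / K by positivity)
    filter_upwards [h2] with z hz
    rw [div_le_div_iff₀ (by positivity) (by positivity), pow_one] at hz
    have : ((K * z : ℕ) : ℝ) ≤ 4 ^ z := by push_cast; linarith
    exact_mod_cast this
  filter_upwards [candidates K hK, no_candidate h, hev, Filter.eventually_ge_atTop 1]
    with z hcand hno hKz hz1 t hte ht0 htK
  choose n hn1 hn2 hn3 hn4 hn5 using hcand t hte ht0 htK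
  set S := Nat.primesLE (4 ^ z) with hS
  set V : Ω → (sub S → ℕ) := fun ω i => a (i : Nat.Primes) ω with hV
  set W : Ω → (sub (TT z) → ℕ) := fun ω i => a (i : Nat.Primes) ω with hW
  have hmeas : ∀ i : Nat.Primes, Measurable (a i) := fun i => h.meas i i.2
  have hVm : Measurable V := measurable_pi_lambda _ fun i => hmeas i
  have hWm : Measurable W := measurable_pi_lambda _ fun i => hmeas i
  have hdisj : Disjoint (sub S) (sub (TT z)) := by
    rw [Finset.disjoint_left]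
    intro p hp hp'
    rw [mem_sub] at hp hp'
    have h1 := (Nat.mem_primesLE.mp hp).1
    have h2 := (mem_TT.mp hp').2.1
    omega
  have hind : IndepFun V W P := h.indep.indepFun_finset (sub S) (sub (TT z)) hdisj hmeas
  have hprod := (indepFun_iff_map_prod_eq_prod_map_map hVm.aemeasurable hWm.aemeasurable).mp hind
  -- the bad event
  set A : Set ((sub S → ℕ) × (sub (TT z) → ℕ)) :=
    {vw | ∀ i < (4 ^ z) ^ 3, ¬ ∀ p : sub (TT z), vw.2 p ∉ BB t (n (ext S vw.1) i) (p : Nat.Primes)}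
    with hA
  have hAm : MeasurableSet A := MeasurableSet.of_discrete
  have hincl : {ω | ¬ Gap t ((4 ^ z) ^ 20) (RS (fun p => a p ω))} ⊆
      (fun ω => (V ω, W ω)) ⁻¹' A := by
    intro ω hω
    rw [Set.mem_ofPred_eq] at hω
    rw [Set.mem_preimage, hA, Set.mem_ofPred_eq]
    intro i hi hcon
    apply hω
    apply gap_of_candidate (fun p => a p ω) z t (n (ext S (V ω)) i) hz1 ht0 (hn1 _ i)
      (hn2 _ i hi)
    · intro p hp hpz
      have h1 := hn4 (ext S (V ω)) i p hp hpz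
      rw [ext_apply S a ω p hp (Nat.mem_primesLE.mpr ⟨hpz, hp⟩)] at h1
      exact h1
    · intro j hj0 hjt
      obtain ⟨p, hp, hpz, hmod⟩ := hn5 (ext S (V ω)) i j hj0 hjt
      have hpz' : p ≤ 4 ^ z := by
        have : z < 4 ^ z := Nat.lt_pow_self (by norm_num)
        omega
      rw [ext_apply S a ω p hp (Nat.mem_primesLE.mpr ⟨hpz', hp⟩)] at hmod
      exact ⟨p, hp, hpz, hmod⟩
    · intro p hp
      have hpp := (mem_TT.mp hp).1
      have h1 := hcon ⟨⟨p, hpp⟩, mem_sub.mpr hp⟩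
      change a p ω ∉ BB t (n (ext S (V ω)) i) p at h1
      unfold BB at h1
      rw [mem_insert, mem_singleton, not_or] at h1
      change _ ≠ a p ω % p ∧ _ ≠ a p ω % p
      rw [Nat.mod_eq_of_lt (h.lt p hpp ω)]
      exact ⟨fun h => h1.1 h.symm, fun h => h1.2 h.symm⟩
  have hfib : ∀ v : sub S → ℕ, P.map W (Prod.mk v ⁻¹' A) ≤
      ENNReal.ofReal (481 / ((4 ^ z : ℕ) : ℝ)) := by
    intro v
    rw [Measure.map_apply hWm MeasurableSet.of_discrete]
    have h1 := hno t ht0 (htK.trans hKz) (n (ext S v)) (hn2 _) (hn3 _)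
    have h2 : W ⁻¹' (Prod.mk v ⁻¹' A) = {ω | ∀ i < (4 ^ z) ^ 3, ω ∉
        {ω | ∀ p ∈ TT z, a p ω ∉ BB t (n (ext S v) i) p}} := by
      ext ω
      simp only [hA, hW, Set.mem_preimage, Set.mem_ofPred_eq]
      refine forall_congr' fun i => forall_congr' fun _ => not_congr ?_
      constructor
      · intro h p hp
        exact h ⟨⟨p, (mem_TT.mp hp).1⟩, mem_sub.mpr hp⟩
      · intro h p
        exact h p (mem_sub.mp p.2)
    rw [h2]
    rw [← ENNReal.ofReal_toReal (measure_ne_top P _)]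
    exact ENNReal.ofReal_le_ofReal h1
  calc P {ω | ¬ Gap t ((4 ^ z) ^ 20) (RS (fun p => a p ω))} ≤ P ((fun ω => (V ω, W ω)) ⁻¹' A) :=
        measure_mono hincl
    _ = (P.map (fun ω => (V ω, W ω))) A := (Measure.map_apply (hVm.prodMk hWm) hAm).symm
    _ = ((P.map V).prod (P.map W)) A := by rw [hprod]
    _ = ∫⁻ v, P.map W (Prod.mk v ⁻¹' A) ∂(P.map V) := by
        have : IsProbabilityMeasure (P.map W) := Measure.isProbabilityMeasure_map hWm.aemeasurable
        rw [Measure.prod_apply hAm]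
    _ ≤ ∫⁻ _v, ENNReal.ofReal (481 / ((4 ^ z : ℕ) : ℝ)) ∂(P.map V) := lintegral_mono hfib
    _ = ENNReal.ofReal (481 / ((4 ^ z : ℕ) : ℝ)) := by
        have : IsProbabilityMeasure (P.map V) := Measure.isProbabilityMeasure_map hVm.aemeasurable
        simp

/-- almost surely, for every `K` and all large `z`, all even `t ≤ K z` are gaps -/
lemma ae_gaps (h : Model P a) : ∀ᵐ ω ∂P, ∀ K : ℕ, 1 ≤ K → ∀ᶠ z : ℕ in Filter.atTop,
    ∀ t, Even t → 0 < t → t ≤ K * z → Gap t ((4 ^ z) ^ 20) (RS (fun p => a p ω)) := by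
  rw [ae_all_iff]
  intro K
  by_cases hK : 1 ≤ K
  swap
  · exact Filter.Eventually.of_forall fun ω h1 => absurd h1 hK
  obtain ⟨z0, hz0⟩ := Filter.eventually_atTop.mp (prob_no_gap h K hK)
  set s : ℕ → Set Ω := fun z => if z0 ≤ z then
    {ω | ∃ t, Even t ∧ 0 < t ∧ t ≤ K * z ∧ ¬ Gap t ((4 ^ z) ^ 20) (RS (fun p => a p ω))} else ∅ with hs
  have hbound : ∀ z, P (s z) ≤ ENNReal.ofReal ((481 * K) * ((z : ℝ) ^ 1 * (1 / 4) ^ z)) := by
    intro z
    simp only [hs]
    split_ifs with hz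
    · have h1 : {ω | ∃ t, Even t ∧ 0 < t ∧ t ≤ K * z ∧
          ¬ Gap t ((4 ^ z) ^ 20) (RS (fun p => a p ω))} ⊆
          ⋃ t ∈ (Icc 1 (K * z)).filter (fun t => Even t),
            {ω | ¬ Gap t ((4 ^ z) ^ 20) (RS (fun p => a p ω))} := by
        rintro ω ⟨t, h1, h2, h3, h4⟩
        simp only [Set.mem_iUnion]
        exact ⟨t, mem_filter.mpr ⟨mem_Icc.mpr ⟨h2, h3⟩, h1⟩, h4⟩
      calc _ ≤ P (⋃ t ∈ (Icc 1 (K * z)).filter (fun t => Even t),
            {ω | ¬ Gap t ((4 ^ z) ^ 20) (RS (fun p => a p ω))}) := measure_mono h1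
        _ ≤ ∑ t ∈ (Icc 1 (K * z)).filter (fun t => Even t),
            P {ω | ¬ Gap t ((4 ^ z) ^ 20) (RS (fun p => a p ω))} := measure_biUnion_finset_le _ _
        _ ≤ ∑ t ∈ (Icc 1 (K * z)).filter (fun t => Even t),
            ENNReal.ofReal (481 / ((4 ^ z : ℕ) : ℝ)) := by
            refine Finset.sum_le_sum fun t ht => ?_
            rw [mem_filter, mem_Icc] at ht
            exact hz0 z hz t ht.2 ht.1.1 ht.1.2
        _ = (#((Icc 1 (K * z)).filter (fun t => Even t)) : ENNReal) *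
            ENNReal.ofReal (481 / ((4 ^ z : ℕ) : ℝ)) := by
            rw [Finset.sum_const, nsmul_eq_mul]
        _ ≤ ((K * z : ℕ) : ENNReal) * ENNReal.ofReal (481 / ((4 ^ z : ℕ) : ℝ)) := by
            gcongr
            refine (card_filter_le _ _).trans ?_
            rw [Nat.card_Icc]; omega
        _ = ENNReal.ofReal ((481 * K) * ((z : ℝ) ^ 1 * (1 / 4) ^ z)) := by
            rw [← ENNReal.ofReal_natCast, ← ENNReal.ofReal_mul (by positivity)]
            congr 1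
            push_cast
            rw [pow_one, div_pow, one_pow]
            ring
    · simp
  have hsum0 : Summable (fun z : ℕ => ((z : ℝ) ^ 1 * (1 / 4 : ℝ) ^ z)) :=
    summable_pow_mul_geometric_of_norm_lt_one (R := ℝ) (r := 1 / 4) 1 (by norm_num)
  have hsum : Summable (fun z : ℕ => (481 * (K : ℝ)) * ((z : ℝ) ^ 1 * (1 / 4) ^ z)) :=
    hsum0.mul_left (481 * (K : ℝ))
  have htop : ∑' z, P (s z) ≠ ⊤ := by
    refine ne_top_of_le_ne_top ?_ (ENNReal.tsum_le_tsum hbound)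
    rw [← ENNReal.ofReal_tsum_of_nonneg (fun z => by positivity) hsum]
    exact ENNReal.ofReal_ne_top
  have hae := ae_eventually_notMem htop
  filter_upwards [hae] with ω hω _
  filter_upwards [hω, Filter.eventually_ge_atTop z0] with z hz hzz0 t h1 h2 h3
  by_contra h4
  apply hz
  simp only [hs]
  rw [if_pos hzz0]
  exact ⟨t, h1, h2, h3, h4⟩

/-- deterministic conclusion -/
lemma tendsto_of_gaps (S : Set ℕ) (h : ∀ K : ℕ, 1 ≤ K → ∀ᶠ z : ℕ in Filter.atTop,
    ∀ t, Even t → 0 < t → t ≤ K * z → Gap t ((4 ^ z) ^ 20) S) :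
    Filter.Tendsto (fun N : ℕ => ((sInf {t : ℕ | 0 < t ∧ Even t ∧
      ∀ n < N, Nat.nth (· ∈ S) (n + 1) - Nat.nth (· ∈ S) n ≠ t} : ℕ) : ℝ) / Real.log (N : ℝ))
      Filter.atTop Filter.atTop := by
  rw [Filter.tendsto_atTop]
  intro C
  obtain ⟨K0, hK0⟩ := exists_nat_ge (|C|)
  set K := 60 * (K0 + 1) with hK
  obtain ⟨z0, hz0⟩ := Filter.eventually_atTop.mp (h K (by omega))
  filter_upwards [Filter.eventually_ge_atTop ((4 ^ (z0 + 1)) ^ 20)] with N hN
  have hN1 : 1 < N := lt_of_lt_of_le (Nat.one_lt_pow (by norm_num)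
    (Nat.one_lt_pow (by omega) (by norm_num))) hN
  -- choose z
  set b := 4 ^ 20 with hb
  set z := Nat.log b N with hz
  have hpow : ∀ k, (4 ^ k) ^ 20 = b ^ k := by
    intro k; rw [hb, ← pow_mul, ← pow_mul, mul_comm]
  have h1 : (4 ^ z) ^ 20 ≤ N := by
    rw [hpow]; exact Nat.pow_log_le_self b (by omega)
  have h2 : N < b ^ (z + 1) := Nat.lt_pow_succ_log_self (by norm_num [hb]) N
  have h3 : z0 + 1 ≤ z := by
    rw [hz]
    apply Nat.le_log_of_pow_le (by norm_num [hb])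
    rw [← hpow]; exact hN
  have hz1 : 1 ≤ z := by omega
  have hgap := hz0 z (by omega)
  set T := {t : ℕ | 0 < t ∧ Even t ∧
      ∀ n < N, Nat.nth (· ∈ S) (n + 1) - Nat.nth (· ∈ S) n ≠ t} with hT
  have hne : T.Nonempty := by
    -- only finitely many gaps
    set M := ∑ n ∈ range N, (Nat.nth (· ∈ S) (n + 1) - Nat.nth (· ∈ S) n) with hM
    refine ⟨2 * (M + 1), by omega, even_two_mul _, ?_⟩
    intro n hn heq
    have h4 : Nat.nth (· ∈ S) (n + 1) - Nat.nth (· ∈ S) n ≤ M :=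
      Finset.single_le_sum (f := fun n => Nat.nth (· ∈ S) (n + 1) - Nat.nth (· ∈ S) n)
        (fun _ _ => Nat.zero_le _) (mem_range.mpr hn)
    omega
  have hmem := Nat.sInf_mem hne
  have hlow : K * z < sInf T := by
    by_contra hcon
    push Not at hcon
    obtain ⟨h5, h6, h7⟩ := hmem
    obtain ⟨k, hk, hk2⟩ := hgap (sInf T) h6 h5 hcon
    exact h7 k (by omega) hk2
  have hlogN : Real.log N ≤ 28 * (z + 1) := by
    have h4 : (N : ℝ) ≤ (((4 ^ (z + 1)) ^ 20 : ℕ) : ℝ) := by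
      rw [hpow]; exact_mod_cast h2.le
    have h5 := Real.log_le_log (by positivity) h4
    refine h5.trans ?_
    have := log_x_le (z + 1)
    push_cast at this ⊢
    exact this
  have hlogN0 : 0 < Real.log N := Real.log_pos (by exact_mod_cast hN1)
  rw [le_div_iff₀ hlogN0]
  have hz' : (1 : ℝ) ≤ z := by exact_mod_cast hz1
  have hK' : (K : ℝ) * z ≤ (sInf T : ℕ) := by exact_mod_cast hlow.le
  have hCK : C ≤ K0 := (le_abs_self C).trans hK0
  have hK0' : (0 : ℝ) ≤ K0 := Nat.cast_nonneg _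
  calc C * Real.log N ≤ K0 * Real.log N := by gcongr
    _ ≤ K0 * (28 * (z + 1)) := by gcongr
    _ ≤ K0 * (56 * z) := mul_le_mul_of_nonneg_left (by linarith) hK0'
    _ ≤ (K : ℝ) * z := by
        rw [hK]
        push_cast
        nlinarith
    _ ≤ _ := hK'

end Pool.Agent.H90.BFT
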