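import Pool.Agent.H90.BFT.Defs

/-!
# Second moment method and products of independent events
-/

set_option autoImplicit false

open MeasureTheory ProbabilityTheory Finset

namespace Pool.Agent.H90.BFT

variable {Ω : Type*} [MeasurableSpace Ω]

lemma second_moment (P : Measure Ω) [IsProbabilityMeasure P] (I : ℕ) (hI : 0 < I) (E : ℕ → Set Ω)
    (hE : ∀ i, MeasurableSet (E i)) (ρ η : ℝ) (hρ : 0 < ρ) (hη : 0 ≤ η)
    (h1 : ∀ i < I, P.real (E i) = ρ)
    (h2 : ∀ i < I, ∀ j < I, i ≠ j → P.real (E i ∩ E j) ≤ ρ ^ 2 * (1 + η)) :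
    P.real {ω | ∀ i < I, ω ∉ E i} ≤ 1 / (I * ρ) + η := by
  classical
  set X : Ω → ℝ := fun ω => ∑ i ∈ range I, (E i).indicator (fun _ => (1 : ℝ)) ω with hX
  set m : ℝ := I * ρ with hm
  have hI' : (0 : ℝ) < I := by exact_mod_cast hI
  have hm0 : 0 < m := by positivity
  have hint : ∀ i, Integrable ((E i).indicator (fun _ => (1 : ℝ))) P := fun i =>
    (integrable_const (1 : ℝ)).indicator (hE i)
  have hXint : Integrable X P := integrable_finsetSum _ fun i _ => hint i
  have hEX : ∫ ω, X ω ∂P = m := by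
    simp only [hX]
    rw [integral_finsetSum _ fun i _ => hint i]
    have : ∀ i ∈ range I, ∫ ω, (E i).indicator (fun _ => (1 : ℝ)) ω ∂P = ρ := by
      intro i hi
      rw [integral_indicator_const _ (hE i), smul_eq_mul, mul_one]
      exact h1 i (Finset.mem_range.mp hi)
    rw [Finset.sum_congr rfl this]
    simp [hm]
  have hprod : ∀ i j ω, (E i).indicator (fun _ => (1 : ℝ)) ω * (E j).indicator (fun _ => (1 : ℝ)) ω =
      (E i ∩ E j).indicator (fun _ => (1 : ℝ)) ω := by
    intro i j ω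
    by_cases hi : ω ∈ E i <;> by_cases hj : ω ∈ E j <;> simp [Set.indicator, hi, hj]
  have hX2 : ∀ ω, X ω ^ 2 = ∑ i ∈ range I, ∑ j ∈ range I,
      (E i ∩ E j).indicator (fun _ => (1 : ℝ)) ω := by
    intro ω
    simp only [hX]
    rw [sq, Finset.sum_mul_sum]
    apply Finset.sum_congr rfl
    intro i _
    apply Finset.sum_congr rfl
    intro j _
    exact hprod i j ω
  have hint2 : ∀ i j, Integrable ((E i ∩ E j).indicator (fun _ => (1 : ℝ))) P := fun i j =>
    (integrable_const (1 : ℝ)).indicator ((hE i).inter (hE j))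
  have hX2int : Integrable (fun ω => X ω ^ 2) P := by
    have : (fun ω => X ω ^ 2) = fun ω => ∑ i ∈ range I, ∑ j ∈ range I,
        (E i ∩ E j).indicator (fun _ => (1 : ℝ)) ω := funext hX2
    rw [this]
    exact integrable_finsetSum _ fun i _ => integrable_finsetSum _ fun j _ => hint2 i j
  have hEX2 : ∫ ω, X ω ^ 2 ∂P ≤ m + m ^ 2 * (1 + η) := by
    have e : ∫ ω, X ω ^ 2 ∂P = ∑ i ∈ range I, ∑ j ∈ range I, P.real (E i ∩ E j) := by
      simp_rw [hX2]
      rw [integral_finsetSum _ fun i _ => integrable_finsetSum _ fun j _ => hint2 i j]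
      apply Finset.sum_congr rfl
      intro i _
      rw [integral_finsetSum _ fun j _ => hint2 i j]
      apply Finset.sum_congr rfl
      intro j _
      rw [integral_indicator_const _ ((hE i).inter (hE j)), smul_eq_mul, mul_one]
    rw [e]
    have hrow : ∀ i ∈ range I, ∑ j ∈ range I, P.real (E i ∩ E j) ≤ ρ + I * (ρ ^ 2 * (1 + η)) := by
      intro i hi
      have hi' := Finset.mem_range.mp hi
      have hterm : ∀ j ∈ range I, P.real (E i ∩ E j) ≤
          (if i = j then ρ else 0) + ρ ^ 2 * (1 + η) := by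
        intro j hj
        by_cases hij : i = j
        · subst hij
          rw [if_pos rfl, Set.inter_self, h1 i hi']
          have : 0 ≤ ρ ^ 2 * (1 + η) := by positivity
          linarith
        · rw [if_neg hij, zero_add]
          exact h2 i hi' j (Finset.mem_range.mp hj) hij
      calc ∑ j ∈ range I, P.real (E i ∩ E j) ≤
            ∑ j ∈ range I, ((if i = j then ρ else 0) + ρ ^ 2 * (1 + η)) := Finset.sum_le_sum hterm
        _ = ρ + I * (ρ ^ 2 * (1 + η)) := by
            rw [Finset.sum_add_distrib, Finset.sum_ite_eq, if_pos hi]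
            simp
    calc ∑ i ∈ range I, ∑ j ∈ range I, P.real (E i ∩ E j) ≤
          ∑ i ∈ range I, (ρ + I * (ρ ^ 2 * (1 + η))) := Finset.sum_le_sum hrow
      _ = m + m ^ 2 * (1 + η) := by
          rw [Finset.sum_const, Finset.card_range, nsmul_eq_mul, hm]
          ring
  -- Chebyshev
  have hset : MeasurableSet {ω | ∀ i < I, ω ∉ E i} := by
    have : {ω | ∀ i < I, ω ∉ E i} = ⋂ i ∈ range I, (E i)ᶜ := by
      ext ω
      simp
    rw [this]
    exact Finset.measurableSet_biInter _ fun i _ => (hE i).compl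
  have hkey : ∀ ω, m ^ 2 * ({ω | ∀ i < I, ω ∉ E i}.indicator (fun _ => (1 : ℝ)) ω) ≤
      X ω ^ 2 - 2 * m * X ω + m ^ 2 := by
    intro ω
    by_cases hω : ω ∈ {ω | ∀ i < I, ω ∉ E i}
    · rw [Set.indicator_of_mem hω]
      have hX0 : X ω = 0 := by
        simp only [hX]
        apply Finset.sum_eq_zero
        intro i hi
        exact Set.indicator_of_notMem (hω i (Finset.mem_range.mp hi)) _
      rw [hX0]
      ring_nf
      exact le_refl _
    · rw [Set.indicator_of_notMem hω]
      nlinarith [sq_nonneg (X ω - m)]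
  have hfin : m ^ 2 * P.real {ω | ∀ i < I, ω ∉ E i} ≤ m + m ^ 2 * η := by
    have h3 : ∫ ω, m ^ 2 * ({ω | ∀ i < I, ω ∉ E i}.indicator (fun _ => (1 : ℝ)) ω) ∂P ≤
        ∫ ω, (X ω ^ 2 - 2 * m * X ω + m ^ 2) ∂P := by
      apply integral_mono
      · exact ((integrable_const (1 : ℝ)).indicator hset).const_mul _
      · exact (hX2int.sub (hXint.const_mul _)).add (integrable_const _)
      · exact hkey
    rw [integral_const_mul, integral_indicator_const _ hset, smul_eq_mul, mul_one] at h3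
    have h4 : ∫ ω, (X ω ^ 2 - 2 * m * X ω + m ^ 2) ∂P = ∫ ω, X ω ^ 2 ∂P - 2 * m * m + m ^ 2 := by
      have e1 : Integrable (fun ω => X ω ^ 2 - 2 * m * X ω) P :=
        hX2int.sub (hXint.const_mul (2 * m))
      have e2 : ∫ ω, (X ω ^ 2 - 2 * m * X ω + m ^ 2) ∂P =
          ∫ ω, (X ω ^ 2 - 2 * m * X ω) ∂P + ∫ _ω, m ^ 2 ∂P := integral_add e1 (integrable_const _)
      have e3 : ∫ ω, (X ω ^ 2 - 2 * m * X ω) ∂P = ∫ ω, X ω ^ 2 ∂P - ∫ ω, 2 * m * X ω ∂P :=
        integral_sub hX2int (hXint.const_mul (2 * m))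
      rw [e2, e3, integral_const_mul, hEX]
      simp
    rw [h4] at h3
    nlinarith
  have h5 : P.real {ω | ∀ i < I, ω ∉ E i} ≤ (m + m ^ 2 * η) / m ^ 2 := by
    rw [le_div_iff₀ (by positivity)]
    linarith
  calc _ ≤ (m + m ^ 2 * η) / m ^ 2 := h5
    _ = 1 / m + η := by field_simp

variable {P : Measure Ω} [IsProbabilityMeasure P] {a : ℕ → Ω → ℕ}

omit [IsProbabilityMeasure P] in
lemma Model.unif_real (h : Model P a) (p : ℕ) (hp : p.Prime) (c : ℕ) (hc : c < p) :
    P.real {ω | a p ω = c} = 1 / (p : ℝ) := by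
  unfold Measure.real
  rw [h.unif p hp c hc]
  simp

/-- probability of avoiding a finite set of classes -/
lemma Model.avoid (h : Model P a) (p : ℕ) (hp : p.Prime) (B : Finset ℕ) (hB : B ⊆ range p) :
    P.real {ω | a p ω ∉ B} = 1 - #B / (p : ℝ) := by
  have hmB : MeasurableSet {ω | a p ω ∈ B} := h.meas p hp B.measurableSet
  have h1 : P.real {ω | a p ω ∈ B} = #B / (p : ℝ) := by
    have e : {ω | a p ω ∈ B} = ⋃ c ∈ B, {ω | a p ω = c} := by
      ext ω; simp
    rw [e, measureReal_biUnion_finset]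
    · rw [Finset.sum_congr rfl fun c hc => h.unif_real p hp c (Finset.mem_range.mp (hB hc))]
      rw [Finset.sum_const, nsmul_eq_mul]
      ring
    · intro c _ c' _ hcc
      rw [Function.onFun, Set.disjoint_left]
      intro ω h1 h2
      exact hcc (h1.symm.trans h2)
    · intro c _
      exact h.meas p hp (measurableSet_singleton c)
  have h2 : {ω | a p ω ∉ B} = {ω | a p ω ∈ B}ᶜ := rfl
  rw [h2, probReal_compl_eq_one_sub hmB, h1]

/-- independence over a finite set of primes -/
lemma Model.avoid_all (h : Model P a) (T : Finset ℕ) (hT : ∀ p ∈ T, p.Prime) (B : ℕ → Finset ℕ)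
    (hB : ∀ p ∈ T, B p ⊆ range p) :
    P.real {ω | ∀ p ∈ T, a p ω ∉ B p} = ∏ p ∈ T, (1 - #(B p) / (p : ℝ)) := by
  classical
  have hset : {ω | ∀ p ∈ T, a p ω ∉ B p} =
      ⋂ p ∈ T.subtype Nat.Prime, a p ⁻¹' {c | c ∉ B p} := by
    ext ω
    simp only [Set.mem_ofPred_eq, Set.mem_iInter, Finset.mem_subtype, Set.mem_preimage]
    constructor
    · intro hω p hp
      exact hω p hp
    · intro hω p hp
      exact hω ⟨p, hT p hp⟩ hp
  have hind := h.indep.measure_inter_preimage_eq_mul (T.subtype Nat.Prime)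
    (sets := fun p => {c | c ∉ B p}) (fun p _ => (B p).measurableSet.compl)
  have hind' : P {ω | ∀ p ∈ T, a p ω ∉ B p} =
      ∏ p ∈ T.subtype Nat.Prime, P (a p ⁻¹' {c | c ∉ B p}) := by
    rw [hset]; exact hind
  unfold Measure.real
  rw [hind', ENNReal.toReal_prod]
  have e : ∀ p : Nat.Primes, p ∈ T.subtype Nat.Prime →
      (P (a p ⁻¹' {c | c ∉ B p})).toReal = 1 - #(B p) / ((p : ℕ) : ℝ) := by
    intro p hp
    have := h.avoid p p.2 (B p) (hB p (Finset.mem_subtype.mp hp))
    exact this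
  refine (Finset.prod_congr rfl e).trans ?_
  exact Finset.prod_subtype_of_mem (fun p => 1 - #(B p) / (p : ℝ)) hT

end Pool.Agent.H90.BFT
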