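import Pool.Agent.H90.BFT.Theta
import Pool.Agent.H90.BFT.Prob

/-!
# Probability that none of the candidates survives
-/

set_option autoImplicit false

open MeasureTheory ProbabilityTheory Finset

namespace Pool.Agent.H90.BFT

/-- the classes to be avoided -/
def BB (t n p : ℕ) : Finset ℕ := {n % p, (n + t) % p}

lemma BB_subset (t n p : ℕ) (hp : 0 < p) : BB t n p ⊆ range p := by
  intro c hc
  unfold BB at hc
  rw [mem_insert, mem_singleton] at hc
  rw [mem_range]
  rcases hc with rfl | rfl <;> exact Nat.mod_lt _ hp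

lemma card_BB (t n p : ℕ) (ht : 0 < t) (htp : t < p) : #(BB t n p) = 2 := by
  unfold BB
  apply Finset.card_pair
  intro h
  have h1 : n + 0 ≡ n + t [MOD p] := by rw [add_zero]; exact h
  have h2 := Nat.ModEq.add_left_cancel' n h1
  have h3 : t % p = 0 := by
    have : 0 % p = t % p := h2
    rw [Nat.zero_mod] at this
    exact this.symm
  rw [Nat.mod_eq_of_lt htp] at h3
  omega

lemma card_BB_union (t n n' p : ℕ) (ht : 0 < t) (htp : t < p) (hn : n + t < n')
    (h1 : ¬ p ∣ n' - n) (h2 : ¬ p ∣ n' - (n + t)) (h3 : ¬ p ∣ n' + t - n) :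
    #(BB t n p ∪ BB t n' p) = 4 := by
  rw [Finset.card_union_of_disjoint, card_BB t n p ht htp, card_BB t n' p ht htp]
  rw [Finset.disjoint_left]
  intro c hc hc'
  unfold BB at hc hc'
  rw [mem_insert, mem_singleton] at hc hc'
  rcases hc with rfl | rfl
  · rcases hc' with h | h
    · exact h1 ((Nat.modEq_iff_dvd' (by omega)).mp h)
    · exact h3 ((Nat.modEq_iff_dvd' (by omega)).mp h)
  · rcases hc' with h | h
    · exact h2 ((Nat.modEq_iff_dvd' (by omega)).mp h)
    · apply h1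
      have h4 : n + t ≡ n' + t [MOD p] := h
      exact (Nat.modEq_iff_dvd' (by omega)).mp (Nat.ModEq.add_right_cancel' t h4)

lemma card_BB_union_ge (t n n' p : ℕ) (ht : 0 < t) (htp : t < p) :
    2 ≤ #(BB t n p ∪ BB t n' p) := by
  rw [← card_BB t n p ht htp]
  exact card_le_card subset_union_left

/-- pair correlation -/
lemma pair_le (z t n n' : ℕ) (hz : 240 ≤ 4 ^ z) (ht : 0 < t) (hty : t ≤ 4 ^ z) (hn : n + t < n')
    (hn' : n' + t < (4 ^ z) ^ 20) :
    ∏ p ∈ TT z, (1 - #(BB t n p ∪ BB t n' p) / (p : ℝ)) ≤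
      (∏ p ∈ TT z, (1 - 2 / (p : ℝ))) ^ 2 * (1 + 480 / ((4 ^ z : ℕ) : ℝ)) := by
  classical
  set y := 4 ^ z with hy
  have hy0 : (240 : ℝ) ≤ (y : ℝ) := by exact_mod_cast hz
  set C := (TT z).filter (fun p => p ∣ n' - n ∨ p ∣ n' - (n + t) ∨ p ∣ n' + t - n) with hC
  have hCcard : #C ≤ 60 := by
    have h1 : #((TT z).filter (fun p => p ∣ n' - n)) < 20 := by
      apply card_prime_factors_lt (y := y) (m := n' - n) (by omega) (by omega) (by omega)
      intro p hp
      rw [mem_filter] at hp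
      exact ⟨(mem_TT.mp hp.1).1, (mem_TT.mp hp.1).2.1, hp.2⟩
    have h2 : #((TT z).filter (fun p => p ∣ n' - (n + t))) < 20 := by
      apply card_prime_factors_lt (y := y) (m := n' - (n + t)) (by omega) (by omega) (by omega)
      intro p hp
      rw [mem_filter] at hp
      exact ⟨(mem_TT.mp hp.1).1, (mem_TT.mp hp.1).2.1, hp.2⟩
    have h3 : #((TT z).filter (fun p => p ∣ n' + t - n)) < 20 := by
      apply card_prime_factors_lt (y := y) (m := n' + t - n) (by omega) (by omega) (by omega)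
      intro p hp
      rw [mem_filter] at hp
      exact ⟨(mem_TT.mp hp.1).1, (mem_TT.mp hp.1).2.1, hp.2⟩
    have h4 : C ⊆ (TT z).filter (fun p => p ∣ n' - n) ∪ ((TT z).filter (fun p => p ∣ n' - (n + t)) ∪
        (TT z).filter (fun p => p ∣ n' + t - n)) := by
      intro p hp
      rw [hC, mem_filter] at hp
      rw [mem_union, mem_union, mem_filter, mem_filter, mem_filter]
      tauto
    have h5 := (card_le_card h4).trans (card_union_le _ _)
    have h6 := card_union_le ((TT z).filter (fun p => p ∣ n' - (n + t)))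
      ((TT z).filter (fun p => p ∣ n' + t - n))
    omega
  -- termwise bound
  have hp : ∀ p ∈ TT z, p.Prime ∧ (y : ℝ) < p ∧ t < p := by
    intro p hp
    obtain ⟨h1, h2, -⟩ := mem_TT.mp hp
    exact ⟨h1, by exact_mod_cast h2, by omega⟩
  set c := 1 / (1 - 2 / (y : ℝ)) with hc
  have h2y : 2 / (y : ℝ) ≤ 1 / 120 := by
    rw [div_le_iff₀ (by linarith)]; linarith
  have hden : 0 < 1 - 2 / (y : ℝ) := by linarith
  have hc1 : 1 ≤ c := by
    rw [hc, le_div_iff₀ hden]
    have : 0 ≤ 2 / (y : ℝ) := by positivity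
    linarith
  have hterm : ∀ p ∈ TT z, (1 - #(BB t n p ∪ BB t n' p) / (p : ℝ)) ≤
      (1 - 2 / (p : ℝ)) ^ 2 * (if p ∈ C then c else 1) := by
    intro p hpT
    obtain ⟨h1, h2, h3⟩ := hp p hpT
    have hp0 : (0 : ℝ) < p := by linarith
    have hu : 2 / (p : ℝ) ≤ 2 / y := by gcongr
    have hu0 : 0 < 1 - 2 / (p : ℝ) := by linarith
    split_ifs with hpC
    · have h4 : (2 : ℝ) ≤ #(BB t n p ∪ BB t n' p) := by
        exact_mod_cast card_BB_union_ge t n n' p ht h3
      have h5 : 1 - #(BB t n p ∪ BB t n' p) / (p : ℝ) ≤ 1 - 2 / (p : ℝ) := by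
        have : 2 / (p : ℝ) ≤ #(BB t n p ∪ BB t n' p) / (p : ℝ) := by gcongr
        linarith
      refine h5.trans ?_
      have h6 : 1 ≤ (1 - 2 / (p : ℝ)) * c := by
        rw [hc, mul_one_div, le_div_iff₀ hden]
        linarith
      calc 1 - 2 / (p : ℝ) = (1 - 2 / (p : ℝ)) * 1 := by ring
        _ ≤ (1 - 2 / (p : ℝ)) * ((1 - 2 / (p : ℝ)) * c) := by gcongr
        _ = _ := by ring
    · have h4 : ¬ (p ∣ n' - n ∨ p ∣ n' - (n + t) ∨ p ∣ n' + t - n) := by
        intro h; exact hpC (by rw [hC, mem_filter]; exact ⟨hpT, h⟩)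
      push Not at h4
      rw [card_BB_union t n n' p ht h3 hn h4.1 h4.2.1 h4.2.2]
      push_cast
      have : 4 / (p : ℝ) = 2 * (2 / (p : ℝ)) := by ring
      rw [this]
      nlinarith [sq_nonneg (2 / (p : ℝ))]
  have hnonneg : ∀ p ∈ TT z, (0 : ℝ) ≤ 1 - #(BB t n p ∪ BB t n' p) / (p : ℝ) := by
    intro p hpT
    obtain ⟨h1, h2, h3⟩ := hp p hpT
    have h4 : #(BB t n p ∪ BB t n' p) ≤ p := by
      have := card_le_card (union_subset (BB_subset t n p h1.pos) (BB_subset t n' p h1.pos))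
      rwa [card_range] at this
    have h5 : (#(BB t n p ∪ BB t n' p) : ℝ) ≤ p := by exact_mod_cast h4
    have hp0 : (0 : ℝ) < p := by linarith
    have : #(BB t n p ∪ BB t n' p) / (p : ℝ) ≤ 1 := by rw [div_le_one hp0]; exact h5
    linarith
  have hCfac : ∏ p ∈ TT z, (if p ∈ C then c else 1) ≤ 1 + 480 / (y : ℝ) := by
    have h1 : ∏ p ∈ TT z, (if p ∈ C then c else 1) = c ^ #C := by
      rw [Finset.prod_ite, Finset.prod_const, Finset.prod_const_one, mul_one]
      congr 2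
      ext p
      rw [mem_filter]
      exact ⟨fun h => h.2, fun h => ⟨(mem_filter.mp (hC ▸ h)).1, h⟩⟩
    rw [h1]
    calc c ^ #C ≤ c ^ 60 := pow_le_pow_right₀ hc1 hCcard
      _ = 1 / (1 - 2 / (y : ℝ)) ^ 60 := by rw [hc, div_pow, one_pow]
      _ ≤ 1 / (1 - 120 / (y : ℝ)) := by
          apply one_div_le_one_div_of_le
          · have : 120 / (y : ℝ) ≤ 1 / 2 := by
              rw [div_le_iff₀ (by linarith)]; linarith
            linarith
          · have h2 := one_add_mul_le_pow (a := -(2 / (y : ℝ))) (by linarith) 60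
            calc 1 - 120 / (y : ℝ) = 1 + (60 : ℕ) * (-(2 / (y : ℝ))) := by push_cast; ring
              _ ≤ (1 + -(2 / (y : ℝ))) ^ 60 := h2
              _ = _ := by ring
      _ ≤ 1 + 480 / (y : ℝ) := by
          have h3 : 120 / (y : ℝ) ≤ 1 / 2 := by
            rw [div_le_iff₀ (by linarith)]; linarith
          have h4 : 480 / (y : ℝ) = 4 * (120 / (y : ℝ)) := by ring
          have h5 : 0 ≤ 120 / (y : ℝ) := by positivity
          rw [h4, div_le_iff₀ (by linarith)]
          nlinarith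
  calc ∏ p ∈ TT z, (1 - #(BB t n p ∪ BB t n' p) / (p : ℝ))
      ≤ ∏ p ∈ TT z, ((1 - 2 / (p : ℝ)) ^ 2 * (if p ∈ C then c else 1)) :=
        Finset.prod_le_prod hnonneg hterm
    _ = (∏ p ∈ TT z, (1 - 2 / (p : ℝ))) ^ 2 * ∏ p ∈ TT z, (if p ∈ C then c else 1) := by
        rw [Finset.prod_mul_distrib, Finset.prod_pow]
    _ ≤ _ := by gcongr

variable {Ω : Type*} [MeasurableSpace Ω] {P : Measure Ω} [IsProbabilityMeasure P] {a : ℕ → Ω → ℕ}

lemma log_x_le (z : ℕ) : Real.log (((4 ^ z) ^ 20 : ℕ) : ℝ) ≤ 28 * z := by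
  push_cast
  rw [Real.log_pow, Real.log_pow]
  have h4 : Real.log 4 ≤ 1.4 := by
    have : (4 : ℝ) = 2 ^ 2 := by norm_num
    rw [this, Real.log_pow]
    have := Real.log_two_lt_d9
    push_cast
    linarith
  have hz : (0 : ℝ) ≤ z := Nat.cast_nonneg z
  push_cast
  nlinarith

/-- the probability that no candidate survives the sieving by the large primes -/
lemma no_candidate (h : Model P a) : ∀ᶠ z : ℕ in Filter.atTop, ∀ t, 0 < t → t ≤ 4 ^ z →
    ∀ n : ℕ → ℕ, (∀ i, i < (4 ^ z) ^ 3 → n i + t < (4 ^ z) ^ 20) → (∀ i i', i < i' → n i + t < n i') →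
      P.real {ω | ∀ i < (4 ^ z) ^ 3, ω ∉ {ω | ∀ p ∈ TT z, a p ω ∉ BB t (n i) p}} ≤
        481 / ((4 ^ z : ℕ) : ℝ) := by
  have hev : ∀ᶠ z : ℕ in Filter.atTop, (28 * z) ^ 3 ≤ 16 ^ z := by
    have h1 := tendsto_pow_const_div_const_pow_of_one_lt 3 (show (1 : ℝ) < 16 by norm_num)
    have h2 := h1.eventually_le_const (show (0 : ℝ) < 1 / 28 ^ 3 by positivity)
    filter_upwards [h2] with z hz
    rw [div_le_div_iff₀ (by positivity) (by positivity)] at hz
    have : ((28 * z : ℕ) : ℝ) ^ 3 ≤ 16 ^ z := by push_cast; nlinarith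
    exact_mod_cast this
  filter_upwards [hev, Filter.eventually_ge_atTop 4] with z hz3 hz4 t ht hty n hnlt hnsep
  set y := 4 ^ z with hy
  have hz240 : 240 ≤ 4 ^ z := by
    calc 240 ≤ 4 ^ 4 := by norm_num
      _ ≤ 4 ^ z := Nat.pow_le_pow_right (by norm_num) hz4
  have hy0 : (240 : ℝ) ≤ (y : ℝ) := by exact_mod_cast hz240
  set ρ := ∏ p ∈ TT z, (1 - 2 / (p : ℝ)) with hρ
  have hT : ∀ p ∈ TT z, p.Prime := fun p hp => (mem_TT.mp hp).1
  have hTt : ∀ p ∈ TT z, t < p := fun p hp => by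
    have := (mem_TT.mp hp).2.1
    omega
  have hρ0 : 0 < ρ := by
    apply Finset.prod_pos
    intro p hp
    have h1 := (mem_TT.mp hp).2.1
    have h2 : (240 : ℝ) < p := by
      have : 240 < p := by omega
      exact_mod_cast this
    have h3 : 2 / (p : ℝ) < 1 := by rw [div_lt_one (by linarith)]; linarith
    linarith
  have hE : ∀ i, MeasurableSet {ω | ∀ p ∈ TT z, a p ω ∉ BB t (n i) p} := by
    intro i
    have : {ω | ∀ p ∈ TT z, a p ω ∉ BB t (n i) p} =
        ⋂ p ∈ TT z, {ω | a p ω ∉ BB t (n i) p} := by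
      ext ω; simp
    rw [this]
    apply Finset.measurableSet_biInter
    intro p hp
    exact h.meas p (hT p hp) (BB t (n i) p).measurableSet.compl
  have hsm := second_moment P (y ^ 3) (by positivity) (fun i => {ω | ∀ p ∈ TT z, a p ω ∉ BB t (n i) p})
    hE ρ (480 / (y : ℝ)) hρ0 (by positivity) (by
      intro i _
      rw [h.avoid_all (TT z) hT (fun p => BB t (n i) p) (fun p hp => BB_subset _ _ _ (hT p hp).pos)]
      apply Finset.prod_congr rfl
      intro p hp
      rw [card_BB t (n i) p ht (hTt p hp)]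
      norm_num) (by
      have key : ∀ i < y ^ 3, ∀ j < y ^ 3, i < j →
          P.real ({ω | ∀ p ∈ TT z, a p ω ∉ BB t (n i) p} ∩ {ω | ∀ p ∈ TT z, a p ω ∉ BB t (n j) p}) ≤
            ρ ^ 2 * (1 + 480 / (y : ℝ)) := by
        intro i _ j hj hij
        have e : {ω | ∀ p ∈ TT z, a p ω ∉ BB t (n i) p} ∩ {ω | ∀ p ∈ TT z, a p ω ∉ BB t (n j) p} =
            {ω | ∀ p ∈ TT z, a p ω ∉ BB t (n i) p ∪ BB t (n j) p} := by
          ext ω
          simp only [Set.mem_inter_iff, Set.mem_ofPred_eq, mem_union, not_or]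
          exact ⟨fun h p hp => ⟨h.1 p hp, h.2 p hp⟩, fun h => ⟨fun p hp => (h p hp).1,
            fun p hp => (h p hp).2⟩⟩
        rw [e, h.avoid_all (TT z) hT (fun p => BB t (n i) p ∪ BB t (n j) p) (fun p hp =>
          union_subset (BB_subset _ _ _ (hT p hp).pos) (BB_subset _ _ _ (hT p hp).pos))]
        exact pair_le z t (n i) (n j) hz240 ht hty (hnsep i j hij) (hnlt j hj)
      intro i hi j hj hij
      rcases Nat.lt_or_gt_of_ne hij with h1 | h1
      · exact key i hi j hj h1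
      · rw [Set.inter_comm]
        exact key j hj i hi h1)
  refine hsm.trans ?_
  have hlog := log_x_le z
  have hρge : (1 / (28 * (z : ℝ))) ^ 3 ≤ ρ := by
    refine le_trans ?_ (prod_two_ge z (by omega))
    have hx : (1 : ℝ) < (((4 ^ z) ^ 20 : ℕ) : ℝ) := by
      have : 1 < (4 ^ z) ^ 20 := Nat.one_lt_pow (by norm_num) (by omega)
      exact_mod_cast this
    have hlog0 := Real.log_pos hx
    gcongr
  have hz0 : (0 : ℝ) < z := by exact_mod_cast (by omega : 0 < z)
  have h5 : (y : ℝ) ≤ (((y ^ 3 : ℕ) : ℝ)) * ρ := by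
    have h6 : ((28 : ℝ) * z) ^ 3 ≤ (y : ℝ) ^ 2 := by
      have : ((28 * z) ^ 3 : ℕ) ≤ y ^ 2 := by
        rw [hy, ← pow_mul, mul_comm z 2, pow_mul]
        norm_num
        exact hz3
      exact_mod_cast this
    calc (y : ℝ) ≤ (y : ℝ) ^ 3 * (1 / (28 * (z : ℝ))) ^ 3 := by
          rw [div_pow, one_pow, mul_one_div, le_div_iff₀ (by positivity)]
          nlinarith
      _ ≤ (y : ℝ) ^ 3 * ρ := by gcongr
      _ = _ := by push_cast; ring
  have h6 : 1 / ((((y ^ 3 : ℕ) : ℝ)) * ρ) ≤ 1 / (y : ℝ) := one_div_le_one_div_of_le (by linarith) h5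
  calc _ ≤ 1 / (y : ℝ) + 480 / (y : ℝ) := by linarith
    _ = _ := by ring

end Pool.Agent.H90.BFT
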