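import Pool.Agent.H90.BFT.Defs
import Pool.Agent.H16.Euler

/-!
# Bounds for the Mertens product and for the number of large prime factors
-/

set_option autoImplicit false

open Finset

namespace Pool.Agent.H90.BFT

lemma one_sub_inv_pos {q : ℕ} (hq : 2 ≤ q) : (0 : ℝ) < 1 - 1 / (q : ℝ) := by
  have : (2 : ℝ) ≤ q := by exact_mod_cast hq
  have h2 : 1 / (q : ℝ) ≤ 1 / 2 := one_div_le_one_div_of_le (by norm_num) this
  linarith

lemma one_sub_inv_le_one (q : ℕ) : 1 - 1 / (q : ℝ) ≤ 1 := by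
  have : (0 : ℝ) ≤ 1 / (q : ℝ) := by positivity
  linarith

lemma two_le_of_mem {p q : ℕ} (h : q ∈ Nat.primesLE p) : 2 ≤ q := (Nat.mem_primesLE.mp h).2.two_le

lemma Th_pos (p : ℕ) : 0 < Th p :=
  Finset.prod_pos fun _ hq => one_sub_inv_pos (two_le_of_mem hq)

lemma log_le_Th_inv (p : ℕ) (hp : 1 ≤ p) : Real.log (p + 1) ≤ (Th p)⁻¹ := by
  have h := Pool.Agent.H16.prod_primes_le p hp
  have h1 : 0 < Real.log ((p : ℝ) + 1) := Real.log_pos (by
    have : (1 : ℝ) ≤ p := by exact_mod_cast hp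
    linarith)
  have h2 := inv_anti₀ (Th_pos p) h
  rwa [one_div, inv_inv] at h2

lemma prod_Icc_two (p : ℕ) (hp : 1 ≤ p) : ∏ k ∈ Icc 2 p, (1 - 1 / (k : ℝ)) = 1 / p := by
  induction p, hp using Nat.le_induction with
  | base => simp
  | succ p hp ih =>
    rw [Finset.prod_Icc_succ_top (by omega), ih]
    have : (0 : ℝ) < p := by exact_mod_cast hp
    push_cast
    field_simp
    ring

lemma Th_inv_le (p : ℕ) (hp : 1 ≤ p) : (Th p)⁻¹ ≤ p := by
  have h1 : 1 / (p : ℝ) ≤ Th p := by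
    rw [← prod_Icc_two p hp]
    unfold Th
    refine Finset.prod_le_prod_of_subset_of_le_one ?_ ?_ ?_
    · intro q hq
      rw [Nat.mem_primesLE] at hq
      exact mem_Icc.mpr ⟨hq.2.two_le, hq.1⟩
    · intro k hk
      exact (one_sub_inv_pos (mem_Icc.mp hk).1).le
    · intro k _ _
      exact one_sub_inv_le_one k
  have h2 : (0 : ℝ) < 1 / p := by
    have : (0 : ℝ) < p := by exact_mod_cast hp
    positivity
  have h3 := inv_anti₀ h2 h1
  rwa [one_div, inv_inv] at h3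

/-- the primes which sieve at the end of the interval -/
noncomputable def TT (z : ℕ) : Finset ℕ :=
  (Nat.primesLE ((4 ^ z) ^ 20)).filter
    (fun p => 4 ^ z < p ∧ (Th p)⁻¹ ≤ Real.log (((4 ^ z) ^ 20 : ℕ) : ℝ))

lemma mem_TT {z p : ℕ} : p ∈ TT z ↔ p.Prime ∧ 4 ^ z < p ∧
    (Th p)⁻¹ ≤ Real.log (((4 ^ z) ^ 20 : ℕ) : ℝ) := by
  unfold TT
  rw [mem_filter, Nat.mem_primesLE]
  constructor
  · rintro ⟨⟨-, h1⟩, h2, h3⟩; exact ⟨h1, h2, h3⟩
  · rintro ⟨h1, h2, h3⟩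
    refine ⟨⟨?_, h1⟩, h2, h3⟩
    have h4 := (log_le_Th_inv p h1.one_lt.le).trans h3
    have h5 : (0 : ℝ) < (((4 ^ z) ^ 20 : ℕ) : ℝ) := by positivity
    have h6 := (Real.log_le_log_iff (by positivity) h5).mp h4
    have h7 : p + 1 ≤ (4 ^ z) ^ 20 := by exact_mod_cast h6
    omega

/-- `∏_{p ∈ TT z} (1 - 1/p)` is at least `1 / log x`. -/
lemma prod_TT_ge (z : ℕ) (hz : 1 ≤ z) :
    1 / Real.log (((4 ^ z) ^ 20 : ℕ) : ℝ) ≤ ∏ p ∈ TT z, (1 - 1 / (p : ℝ)) := by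
  have hx : (3 : ℝ) < (((4 ^ z) ^ 20 : ℕ) : ℝ) := by
    have : 4 ^ 1 ≤ 4 ^ z := Nat.pow_le_pow_right (by norm_num) hz
    have h2 : (4 ^ z) ^ 1 ≤ (4 ^ z) ^ 20 := Nat.pow_le_pow_right (by positivity) (by norm_num)
    have h3 : 3 < (4 ^ z) ^ 20 := by rw [pow_one] at h2; omega
    exact_mod_cast h3
  have hlog : 1 < Real.log (((4 ^ z) ^ 20 : ℕ) : ℝ) := by
    rw [Real.lt_log_iff_exp_lt (by linarith)]
    have := Real.exp_one_lt_d9
    linarith
  rcases (TT z).eq_empty_or_nonempty with h | h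
  · rw [h, prod_empty, div_le_one (by linarith)]
    exact hlog.le
  · set P := (TT z).max' h with hP
    have hPmem : P ∈ TT z := Finset.max'_mem _ _
    obtain ⟨h1, h2, h3⟩ := mem_TT.mp hPmem
    have h4 : 1 / Real.log (((4 ^ z) ^ 20 : ℕ) : ℝ) ≤ Th P := by
      have := inv_anti₀ (inv_pos.mpr (Th_pos P)) h3
      rwa [inv_inv, ← one_div] at this
    refine h4.trans ?_
    unfold Th
    refine Finset.prod_le_prod_of_subset_of_le_one ?_ ?_ ?_
    · intro q hq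
      rw [Nat.mem_primesLE]
      exact ⟨Finset.le_max' _ _ hq, (mem_TT.mp hq).1⟩
    · intro q hq
      exact (one_sub_inv_pos (two_le_of_mem hq)).le
    · intro q _ _
      exact one_sub_inv_le_one q

lemma prod_two_ge (z : ℕ) (hz : 1 ≤ z) :
    (1 / Real.log (((4 ^ z) ^ 20 : ℕ) : ℝ)) ^ 3 ≤ ∏ p ∈ TT z, (1 - 2 / (p : ℝ)) := by
  have h1 := prod_TT_ge z hz
  have h0 : 0 ≤ 1 / Real.log (((4 ^ z) ^ 20 : ℕ) : ℝ) := by
    have : (1 : ℝ) ≤ (((4 ^ z) ^ 20 : ℕ) : ℝ) := by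
      have : 1 ≤ (4 ^ z) ^ 20 := Nat.one_le_pow _ _ (by positivity)
      exact_mod_cast this
    have := Real.log_nonneg this
    positivity
  calc (1 / Real.log (((4 ^ z) ^ 20 : ℕ) : ℝ)) ^ 3 ≤ (∏ p ∈ TT z, (1 - 1 / (p : ℝ))) ^ 3 :=
        pow_le_pow_left₀ h0 h1 3
    _ = ∏ p ∈ TT z, (1 - 1 / (p : ℝ)) ^ 3 := by rw [Finset.prod_pow]
    _ ≤ _ := by
      apply Finset.prod_le_prod
      · intro p hp
        obtain ⟨h2, h3, -⟩ := mem_TT.mp hp
        have := one_sub_inv_pos h2.two_le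
        positivity
      · intro p hp
        obtain ⟨h2, h3, -⟩ := mem_TT.mp hp
        have h4 : 4 ^ 1 ≤ 4 ^ z := Nat.pow_le_pow_right (by norm_num) hz
        have h5 : (4 : ℝ) ≤ p := by
          have : 4 ≤ p := by omega
          exact_mod_cast this
        set u := 1 / (p : ℝ) with hu
        have hu0 : 0 ≤ u := by positivity
        have hu1 : u ≤ 1 / 4 := one_div_le_one_div_of_le (by norm_num) h5
        have e : 2 / (p : ℝ) = 2 * u := by rw [hu]; ring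
        rw [e]
        nlinarith [mul_nonneg hu0 hu0, mul_nonneg (mul_nonneg hu0 hu0) hu0]

/-- A positive integer less than `y ^ 20` has fewer than `20` prime factors above `y`. -/
lemma card_prime_factors_lt {y m : ℕ} (hy : 1 < y) (hm0 : 0 < m) (hm : m < y ^ 20) (C : Finset ℕ)
    (hC : ∀ p ∈ C, p.Prime ∧ y < p ∧ p ∣ m) : #C < 20 := by
  have h1 : ∏ p ∈ C, p ∣ m :=
    Finset.prod_primes_dvd m (fun p hp => (hC p hp).1.prime) (fun p hp => (hC p hp).2.2)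
  have h2 : y ^ #C ≤ ∏ p ∈ C, p := by
    rw [← Finset.prod_const]
    exact Finset.prod_le_prod' fun p hp => (hC p hp).2.1.le
  have h3 := Nat.le_of_dvd hm0 h1
  exact (Nat.pow_lt_pow_iff_right hy).mp (by omega)

end Pool.Agent.H90.BFT
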